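import Pool.Agent.Lib.MP_6bc78b_nt.LW.H12.Shp
import Pool.Agent.Lib.MP_6bc78b_nt.LW.H71.Ev

/-! Project LW: the final assembly. -/

set_option autoImplicit false

open Complex Filter Topology MeasureTheory ArithmeticFunction

namespace Pool.Agent.Lib.MP_6bc78b_nt.LW.H12

open Pool.Agent.Lib.MP_6bc78b_nt
open Pool.Agent.Lib.MP_6bc78b_nt.MS Pool.Agent.Lib.MP_6bc78b_nt.MS.P1
open Pool.Agent.Lib.MP_6bc78b_nt.MS.P5 Pool.Agent.Lib.MP_6bc78b_nt.MS.P5.HM

/-- The sum of `b` over the distinct zeros in the window. -/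
noncomputable def Wb (b : ℝ → ℝ) (u H : ℝ) : ℝ :=
  ∑ᶠ γ ∈ {γ : ℝ | u < γ ∧ γ ≤ u + H ∧ riemannZeta (1 / 2 + γ * I) = 0}, b γ

lemma Wb_eq (hZ : ZfacStatement) (φ : ℕ → ℝ) (u H : ℝ) :
    ∑ᶠ γ ∈ {γ : ℝ | u < γ ∧ γ ≤ u + H ∧ hardyZ γ = 0}, φ (zeroMult γ) =
      Wb (fun γ => φ (mz γ)) u H := by
  obtain ⟨z1, z2, -⟩ := hZ
  unfold Wb
  rw [finsum_mem_def, finsum_mem_def]
  refine finsum_congr fun γ => ?_
  by_cases h : u < γ ∧ γ ≤ u + H ∧ riemannZeta (1 / 2 + γ * I) = 0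
  · rw [Set.indicator_of_mem (show γ ∈ {γ : ℝ | u < γ ∧ γ ≤ u + H ∧
      riemannZeta (1 / 2 + γ * I) = 0} from h), Set.indicator_of_mem
      (show γ ∈ {γ : ℝ | u < γ ∧ γ ≤ u + H ∧ hardyZ γ = 0} from
      ⟨h.1, h.2.1, (z1 γ).2 h.2.2⟩), z2 γ h.2.2]
  · rw [Set.indicator_of_notMem (show γ ∉ {γ : ℝ | u < γ ∧ γ ≤ u + H ∧
      riemannZeta (1 / 2 + γ * I) = 0} from h), Set.indicator_of_notMem
      (show γ ∉ {γ : ℝ | u < γ ∧ γ ≤ u + H ∧ hardyZ γ = 0} from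
      fun h' => h ⟨h'.1, h'.2.1, (z1 γ).1 h'.2.2⟩)]

lemma NW2_eq (hZ : ZfacStatement) (u H : ℝ) :
    NW2 u H = Wb (fun γ => (mz γ : ℝ) ^ 2) u H :=
  Wb_eq hZ (fun m => (m : ℝ) ^ 2) u H

lemma NWk_eq (hZ : ZfacStatement) (k : ℕ) (c u H : ℝ) :
    NWk k c u H = Wb (fun γ => (mz γ : ℝ) * max ((mz γ : ℝ) - c) 0 ^ (2 * k)) u H :=
  Wb_eq hZ (fun m => (m : ℝ) * max ((m : ℝ) - c) 0 ^ (2 * k)) u H

/-- From the weighted inequality to the window inequality. -/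
lemma core (hS : ShpStatement) (hC : CnwStatement) {a0 κ κ' : ℝ} (ha0 : 0 < a0)
    (ha1 : a0 < 1 / 4) (hκ : 0 ≤ κ) (hκκ : κ < κ') :
    ∃ T0 : ℝ, ∀ T H : ℝ, T0 ≤ T → T ^ (2 * a0) ≤ H → H ≤ T ^ (1 - a0) →
      ∀ b E : ℝ → ℝ, (∀ γ, 0 ≤ b γ) → Continuous E → (∀ u, 0 ≤ E u) →
      (∀ t : ℝ, 9 * T / 10 ≤ t → t ≤ 8 * T / 5 →
        ∑ᶠ γ ∈ zst T t, b γ * wl t (H * T ^ (-a0)) γ ≤
          (cL (H * T ^ (-a0)) * Real.log T) * (κ + E t)) →
      ∀ u : ℝ, T ≤ u → u ≤ 3 * T / 2 →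
        (2 / H) * ∫ v in (u - H)..(u + 2 * H), E v ≤ (κ' - κ) / 4 →
        Wb b u H ≤ κ' * NW u H := by
  set e : ℝ := (κ' - κ) / 4 with he
  have he0 : 0 < e := by rw [he]; linarith
  have hκ'0 : 0 < κ' := by linarith
  have hee : 0 < e / κ' := by positivity
  obtain ⟨T1, hT1⟩ := hS a0 e κ ha0 ha1 he0 hκ
  obtain ⟨T2, hT2⟩ := hC a0 (e / κ') ha0 ha1 hee
  refine ⟨max (max T1 T2) 3, ?_⟩
  intro T H hT hH1 hH2 b E hb hE hE0 hyp u hu1 hu2 hsmall
  have hTa : T1 ≤ T := (le_max_left _ _).trans ((le_max_left _ _).trans hT)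
  have hTb : T2 ≤ T := (le_max_right _ _).trans ((le_max_left _ _).trans hT)
  have hTc : 3 ≤ T := (le_max_right _ _).trans hT
  have hTpos : 0 < T := by linarith
  have hHpos : 0 < H := lt_of_lt_of_le (Real.rpow_pos_of_pos hTpos _) hH1
  have h1 := hT1 T H hTa hH1 hH2 b E hb hE hE0 hyp u hu1 hu2
  have h2 := (hT2 T H u hTb hH1 hH2 hu1 hu2).1
  have hlog : 0 < Real.log T := Real.log_pos (by linarith)
  have hM : 0 < H / (2 * Real.pi) * Real.log T := by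
    have := Real.pi_pos
    positivity
  set M := H / (2 * Real.pi) * Real.log T with hMdef
  calc Wb b u H ≤ M * (κ + e + (2 / H) * ∫ v in (u - H)..(u + 2 * H), E v) := h1
    _ ≤ M * (κ + e + e) := by
        apply mul_le_mul_of_nonneg_left _ hM.le
        linarith
    _ ≤ κ' * ((1 - e / κ') * M) := by
        have h3 : κ' * ((1 - e / κ') * M) = (κ' - e) * M := by
          field_simp
        rw [h3, mul_comm M]
        apply mul_le_mul_of_nonneg_right _ hM.le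
        rw [he]
        linarith
    _ ≤ κ' * NW u H := mul_le_mul_of_nonneg_left h2 hκ'0.le

/-- The parameters of a block: `T ∈ {R, 4R/3}`, `H = R^a`. -/
lemma params {a a0 : ℝ} (ha0 : 0 < a0) (h3 : 3 * a0 ≤ a) (h1 : a + a0 ≤ 1) :
    ∃ T0 : ℝ, ∀ R T : ℝ, T0 ≤ R → R ≤ T → T ≤ 4 * R / 3 →
      1 ≤ R ^ a ∧ 3 * R ^ a ≤ T / 10 ∧ T ^ (2 * a0) ≤ R ^ a ∧ R ^ a ≤ T ^ (1 - a0) ∧
      T ^ a0 ≤ R ^ a * T ^ (-a0) ∧ R ^ a * T ^ (-a0) ≤ T ^ (1 - a0) ∧
      T ^ (a - 2 * a0) ≤ R ^ a * T ^ (-a0) ∧ R ^ a * T ^ (-a0) ≤ T := by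
  have e1 : ∀ᶠ T : ℝ in atTop, 60 < T ^ a0 := (tendsto_rpow_atTop ha0).eventually_gt_atTop 60
  obtain ⟨T0, hT0⟩ := Filter.eventually_atTop.1 (e1.and (eventually_ge_atTop (1 : ℝ)))
  refine ⟨T0, ?_⟩
  intro R T hR hRT hTR
  obtain ⟨c1, c2⟩ := hT0 R hR
  have hRp : 0 < R := by linarith
  have hTp : 0 < T := by linarith
  have hT1 : 1 ≤ T := by linarith
  have hT60 : 60 < T ^ a0 := lt_of_lt_of_le c1 (Real.rpow_le_rpow hRp.le hRT ha0.le)
  have hRa : R ^ a ≤ T ^ a := Real.rpow_le_rpow hRp.le hRT (by linarith)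
  have hr : 0 < T ^ (-a0) := Real.rpow_pos_of_pos hTp _
  have hr1 : T ^ (-a0) ≤ 1 := Real.rpow_le_one_of_one_le_of_nonpos hT1 (by linarith)
  -- lower bound for R^a
  have hlow : T ^ (a - a0) ≤ R ^ a := by
    have h4 : 3 * T / 4 ≤ R := by linarith
    have h5 : (3 * T / 4) ^ a ≤ R ^ a := Real.rpow_le_rpow (by linarith) h4 (by linarith)
    refine le_trans ?_ h5
    have h6 : (3 * T / 4) ^ a = (3 / 4 : ℝ) ^ a * T ^ a := by
      rw [← Real.mul_rpow (by norm_num) hTp.le]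
      ring_nf
    rw [h6, Real.rpow_sub hTp, div_le_iff₀ (by linarith)]
    have h7 : (3 / 4 : ℝ) ≤ (3 / 4 : ℝ) ^ a := by
      calc (3 / 4 : ℝ) = (3 / 4 : ℝ) ^ (1 : ℝ) := (Real.rpow_one _).symm
        _ ≤ (3 / 4 : ℝ) ^ a :=
          Real.rpow_le_rpow_of_exponent_ge (by norm_num) (by norm_num) (by linarith)
    have h8 : 0 < T ^ a := Real.rpow_pos_of_pos hTp _
    have h9 : 1 ≤ (3 / 4 : ℝ) ^ a * T ^ a0 := by nlinarith
    nlinarith
  have hTa1 : T ^ a ≤ T ^ (1 - a0) := Real.rpow_le_rpow_of_exponent_le hT1 (by linarith)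
  have hup : R ^ a ≤ T ^ (1 - a0) := hRa.trans hTa1
  have hT10 : 60 * T ^ (1 - a0) ≤ T := by
    have h5 : T ^ (1 - a0) * T ^ a0 = T := by
      rw [← Real.rpow_add hTp]
      simp
    have h6 : 0 < T ^ (1 - a0) := Real.rpow_pos_of_pos hTp _
    nlinarith
  have hmul : ∀ x y : ℝ, T ^ x * T ^ y = T ^ (x + y) := fun x y => (Real.rpow_add hTp x y).symm
  have hq : T ^ (a - 2 * a0) ≤ R ^ a * T ^ (-a0) := by
    calc T ^ (a - 2 * a0) = T ^ (a - a0) * T ^ (-a0) := by rw [hmul]; ring_nf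
      _ ≤ R ^ a * T ^ (-a0) := mul_le_mul_of_nonneg_right hlow hr.le
  have hRa0 : 0 < R ^ a := Real.rpow_pos_of_pos hRp _
  have hq2 : R ^ a * T ^ (-a0) ≤ R ^ a := by nlinarith
  refine ⟨?_, ?_, ?_, hup, ?_, hq2.trans hup, hq, ?_⟩
  · exact Real.one_le_rpow c2 (by linarith)
  · linarith
  · exact (Real.rpow_le_rpow_of_exponent_le hT1 (by linarith)).trans hlow
  · exact (Real.rpow_le_rpow_of_exponent_le hT1 (by linarith)).trans hq
  · linarith

/-- The almost all half, for a general statistic. -/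
theorem ae_half (hS : ShpStatement) (hC : CnwStatement) (hX : ExcStatement) {a a0 κ κ' : ℝ}
    (ha0 : 0 < a0) (h3 : 3 * a0 ≤ a) (h1 : a + a0 ≤ 1) (ha1 : a0 < 1 / 4) (hκ : 0 ≤ κ)
    (hκκ : κ < κ') (b : ℝ → ℝ) (hb : ∀ γ, 0 ≤ b γ) (EE : ℝ → ℝ → ℝ → ℝ)
    (hEc : ∀ T H, Continuous (EE T H)) (hE0 : ∀ T H t, 0 ≤ EE T H t)
    (hw : ∃ T0 : ℝ, ∀ T t H : ℝ, T0 ≤ T → 9 * T / 10 ≤ t → t ≤ 8 * T / 5 → T ^ a0 ≤ H →
      H ≤ T ^ (1 - a0) → ∑ᶠ γ ∈ zst T t, b γ * wl t H γ ≤ (cL H * Real.log T) * (κ + EE T H t))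
    (hv : ∃ d T0 : ℝ, 0 < d ∧ ∀ T H : ℝ, T0 ≤ T → T ^ (a - 2 * a0) ≤ H → H ≤ T →
      ∫ t in (T / 2)..(4 * T), (EE T H t) ^ 2 ≤ T ^ (1 - d)) :
    ∃ δ T0 : ℝ, 0 < δ ∧ ∀ T : ℝ, T0 ≤ T → ∃ S : Set ℝ, MeasurableSet S ∧
      volume S ≤ ENNReal.ofReal (T ^ (1 - δ)) ∧ ∀ t : ℝ, T ≤ t → t ≤ 2 * T → t ∉ S →
        Wb b t (T ^ a) ≤ κ' * NW t (T ^ a) := by
  obtain ⟨T1, hT1⟩ := core hS hC ha0 ha1 hκ hκκ
  obtain ⟨T2, hT2⟩ := params ha0 h3 h1
  obtain ⟨T3, hT3⟩ := hw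
  obtain ⟨d, T4, hd, hT4⟩ := hv
  set e : ℝ := (κ' - κ) / 4 with he
  have he0 : 0 < e := by rw [he]; linarith
  have hd2 : 0 < d / 2 := by linarith
  obtain ⟨T5, hT5⟩ := Filter.eventually_atTop.1
    ((tendsto_rpow_atTop hd2).eventually_ge_atTop (84 / e ^ 2))
  refine ⟨d / 2, max (max (max T1 T2) (max T3 T4)) (max T5 1), hd2, ?_⟩
  intro R hR
  have r1 : T1 ≤ R := (le_max_left _ _).trans ((le_max_left _ _).trans ((le_max_left _ _).trans hR))
  have r2 : T2 ≤ R := (le_max_right _ _).trans ((le_max_left _ _).trans ((le_max_left _ _).trans hR))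
  have r3 : T3 ≤ R := (le_max_left _ _).trans ((le_max_right _ _).trans ((le_max_left _ _).trans hR))
  have r4 : T4 ≤ R := (le_max_right _ _).trans ((le_max_right _ _).trans ((le_max_left _ _).trans hR))
  have r5 : T5 ≤ R := (le_max_left _ _).trans ((le_max_right _ _).trans hR)
  have r6 : 1 ≤ R := (le_max_right _ _).trans ((le_max_right _ _).trans hR)
  have hRp : 0 < R := by linarith
  -- one block
  have block : ∀ T : ℝ, R ≤ T → T ≤ 4 * R / 3 → ∃ S : Set ℝ,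
      volume S ≤ ENNReal.ofReal (36 * T ^ (1 - d) / e ^ 2) ∧ ∀ t : ℝ, T ≤ t → t ≤ 3 * T / 2 →
        t ∉ S → Wb b t (R ^ a) ≤ κ' * NW t (R ^ a) := by
    intro T hRT hTR
    obtain ⟨p1, p2, p3, p4, p5, p6, p7, p8⟩ := hT2 R T r2 hRT hTR
    set H' := R ^ a * T ^ (-a0) with hH'
    refine ⟨{u : ℝ | T ≤ u ∧ u ≤ 3 * T / 2 ∧
      e ≤ (2 / (R ^ a)) * ∫ v in (u - R ^ a)..(u + 2 * R ^ a), EE T H' v}, ?_, ?_⟩
    · exact hX T (R ^ a) (T ^ (1 - d)) e (EE T H') he0 p1 p2 (hEc _ _) (hE0 _ _)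
        (Real.rpow_nonneg (by linarith) _) (hT4 T H' (r4.trans hRT) p7 p8)
    · intro t ht1 ht2 htS
      have h5 : (2 / (R ^ a)) * ∫ v in (t - R ^ a)..(t + 2 * R ^ a), EE T H' v ≤ e := by
        by_contra hcon
        exact htS ⟨ht1, ht2, (not_le.1 hcon).le⟩
      exact hT1 T (R ^ a) (r1.trans hRT) p3 p4 b (EE T H') hb (hEc _ _) (hE0 _ _)
        (fun s hs1 hs2 => hT3 T s H' (r3.trans hRT) hs1 hs2 p5 p6) t ht1 ht2 h5
  obtain ⟨S1, hS1, hS1'⟩ := block R le_rfl (by linarith)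
  obtain ⟨S2, hS2, hS2'⟩ := block (4 * R / 3) (by linarith) le_rfl
  refine ⟨toMeasurable volume (S1 ∪ S2), measurableSet_toMeasurable _ _, ?_, ?_⟩
  · rw [measure_toMeasurable]
    refine (measure_union_le _ _).trans ((add_le_add hS1 hS2).trans ?_)
    rw [← ENNReal.ofReal_add]
    · apply ENNReal.ofReal_le_ofReal
      have h5 : (4 * R / 3) ^ (1 - d) ≤ 4 / 3 * R ^ (1 - d) := by
        rw [show (4 * R / 3 : ℝ) = (4 / 3) * R by ring,
          Real.mul_rpow (by norm_num) hRp.le]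
        apply mul_le_mul_of_nonneg_right _ (Real.rpow_nonneg hRp.le _)
        calc (4 / 3 : ℝ) ^ (1 - d) ≤ (4 / 3 : ℝ) ^ (1 : ℝ) :=
              Real.rpow_le_rpow_of_exponent_le (by norm_num) (by linarith)
          _ = 4 / 3 := Real.rpow_one _
      have h6 : R ^ (1 - d / 2) = R ^ (1 - d) * R ^ (d / 2) := by
        rw [← Real.rpow_add hRp]
        ring_nf
      have h7 := hT5 R r5
      have h8 : 0 < R ^ (1 - d) := Real.rpow_pos_of_pos hRp _
      rw [h6]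
      calc 36 * R ^ (1 - d) / e ^ 2 + 36 * (4 * R / 3) ^ (1 - d) / e ^ 2
          ≤ 36 * R ^ (1 - d) / e ^ 2 + 36 * (4 / 3 * R ^ (1 - d)) / e ^ 2 := by gcongr
        _ = R ^ (1 - d) * (84 / e ^ 2) := by ring
        _ ≤ R ^ (1 - d) * R ^ (d / 2) := mul_le_mul_of_nonneg_left h7 h8.le
    · positivity
    · positivity
  · intro t ht1 ht2 htS
    have h5 : t ∉ S1 ∪ S2 := fun h => htS (subset_toMeasurable _ _ h)
    rw [Set.mem_union, not_or] at h5
    rcases le_total t (3 * R / 2) with h6 | h6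
    · exact hS1' t ht1 h6 h5.1
    · exact hS2' t (by linarith) (by linarith) h5.2

/-- The half for all windows, for a general statistic. -/
theorem all_half (hS : ShpStatement) (hC : CnwStatement) {a a0 κ κ' : ℝ}
    (ha0 : 0 < a0) (h3 : 3 * a0 ≤ a) (h1 : a + a0 ≤ 1) (ha1 : a0 < 1 / 4) (hκ : 0 ≤ κ)
    (hκκ : κ < κ') (b : ℝ → ℝ) (hb : ∀ γ, 0 ≤ b γ) (EE : ℝ → ℝ → ℝ → ℝ)
    (hw : ∃ T0 : ℝ, ∀ T t H : ℝ, T0 ≤ T → 9 * T / 10 ≤ t → t ≤ 8 * T / 5 → T ^ a0 ≤ H →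
      H ≤ T ^ (1 - a0) → ∑ᶠ γ ∈ zst T t, b γ * wl t H γ ≤ (cL H * Real.log T) * (κ + EE T H t))
    (hv : ∃ T0 : ℝ, ∀ T H : ℝ, T0 ≤ T → T ^ (a - 2 * a0) ≤ H → ∀ t : ℝ, EE T H t = 0) :
    ∃ T0 : ℝ, ∀ T : ℝ, T0 ≤ T → ∀ t : ℝ, T ≤ t → t ≤ 2 * T →
        Wb b t (T ^ a) ≤ κ' * NW t (T ^ a) := by
  obtain ⟨T1, hT1⟩ := core hS hC ha0 ha1 hκ hκκ
  obtain ⟨T2, hT2⟩ := params ha0 h3 h1
  obtain ⟨T3, hT3⟩ := hw
  obtain ⟨T4, hT4⟩ := hv
  refine ⟨max (max (max T1 T2) (max T3 T4)) 1, ?_⟩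
  intro R hR
  have r1 : T1 ≤ R := (le_max_left _ _).trans ((le_max_left _ _).trans ((le_max_left _ _).trans hR))
  have r2 : T2 ≤ R := (le_max_right _ _).trans ((le_max_left _ _).trans ((le_max_left _ _).trans hR))
  have r3 : T3 ≤ R := (le_max_left _ _).trans ((le_max_right _ _).trans ((le_max_left _ _).trans hR))
  have r4 : T4 ≤ R := (le_max_right _ _).trans ((le_max_right _ _).trans ((le_max_left _ _).trans hR))
  have r6 : 1 ≤ R := (le_max_right _ _).trans hR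
  have block : ∀ T : ℝ, R ≤ T → T ≤ 4 * R / 3 → ∀ t : ℝ, T ≤ t → t ≤ 3 * T / 2 →
        Wb b t (R ^ a) ≤ κ' * NW t (R ^ a) := by
    intro T hRT hTR t ht1 ht2
    obtain ⟨p1, p2, p3, p4, p5, p6, p7, p8⟩ := hT2 R T r2 hRT hTR
    set H' := R ^ a * T ^ (-a0) with hH'
    have hz := hT4 T H' (r4.trans hRT) p7
    refine hT1 T (R ^ a) (r1.trans hRT) p3 p4 b (fun _ => 0) hb continuous_const
        (fun _ => le_rfl) (fun s hs1 hs2 => ?_) t ht1 ht2 ?_
    · have := hT3 T s H' (r3.trans hRT) hs1 hs2 p5 p6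
      rw [hz s] at this
      exact this
    · rw [intervalIntegral.integral_zero, mul_zero]
      linarith
  intro t ht1 ht2
  rcases le_total t (3 * R / 2) with h6 | h6
  · exact block R le_rfl (by linarith) t ht1 h6
  · exact block (4 * R / 3) (by linarith) le_rfl t (by linarith) (by linarith)

lemma small_pos (P : ℝ → Prop) (h : ∀ᶠ x in 𝓝 (0 : ℝ), P x) : ∀ᶠ x in 𝓝[>] (0 : ℝ), P x :=
  nhdsWithin_le_nhds h

/-- FIN. -/
theorem final (hZ : ZfacStatement) (hH : HwLStatement) (hS : ShpStatement) (hC : CnwStatement)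
    (hX : ExcStatement) (hV : VarLStatement) (hN : Nb0Statement) : FinalStatement := by
  intro a ε ha0 ha1 hε
  have hpos : ∀ᶠ x in 𝓝[>] (0 : ℝ), 0 < x := self_mem_nhdsWithin
  have hmz : ∀ γ : ℝ, (0 : ℝ) ≤ mz γ := fun γ => Nat.cast_nonneg _
  have hlt : ∀ r : ℝ, 0 < r → ∀ᶠ x in 𝓝[>] (0 : ℝ), x < r := fun r hr =>
    nhdsWithin_le_nhds (gt_mem_nhds hr)
  refine ⟨?_, ?_, ?_, ?_⟩
  · -- squares, almost all windows
    have hq : ∀ᶠ x in 𝓝[>] (0 : ℝ), 1 / ((1 + a) / 2 - 2 * x) + ((1 + a) / 2 - 2 * x) / 3 + x <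
        2 / (1 + a) + (1 + a) / 6 + ε := by
      apply nhdsWithin_le_nhds
      have hc : ContinuousAt (fun x : ℝ => 1 / ((1 + a) / 2 - 2 * x) +
          ((1 + a) / 2 - 2 * x) / 3 + x) 0 := by
        have h0 : (1 + a) / 2 - 2 * (0 : ℝ) ≠ 0 := by
          simp only [mul_zero, sub_zero]
          positivity
        fun_prop (disch := assumption)
      apply hc.eventually_lt continuousAt_const
      have : (1 : ℝ) / ((1 + a) / 2 - 2 * 0) = 2 / (1 + a) := by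
        rw [mul_zero, sub_zero, one_div_div]
      rw [this, mul_zero, sub_zero]
      linarith
    obtain ⟨x, ⟨⟨⟨hx1, hx2⟩, hx3⟩, hx4⟩, hx5⟩ := ((((hq.and (hlt (1 / 16) (by norm_num))).and
      (hlt (a / 3) (by positivity))).and (hlt (1 - a) (by linarith))).and hpos).exists
    set lam : ℝ := (1 + a) / 2 - 2 * x with hlam
    have hl0 : 0 < lam := by rw [hlam]; linarith
    have hl1 : lam < 1 := by rw [hlam]; linarith
    obtain ⟨T0, hT0⟩ := (hH x x hx5 (by linarith) hx5).1 lam hl0 hl1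
    have h := ae_half hS hC hX (a := a) (a0 := x) (κ := 1 / lam + lam / 3 + x) (κ' := 2 / (1 + a) + (1 + a) / 6 + ε) hx5
      (by linarith) (by linarith) (by linarith) (by positivity) hx1
      (fun γ => (mz γ : ℝ) ^ 2) (fun γ => by positivity) (fun T H t => E1 lam T H t)
      (fun T H => H71.e1_cont lam T H) (fun T H t => H71.e1_nonneg lam T H t)
      ⟨T0, fun T t H a1 a2 a3 a4 a5 => hT0 T t H a1 a2 a3 a4 a5⟩
      (H71.e1_var hV (a - 2 * x) lam (by linarith) hl0 hl1 (by rw [hlam]; linarith))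
    simp_rw [NW2_eq hZ]
    exact h
  · -- moments, almost all windows
    intro k hk
    have hk0 : (0 : ℝ) < k := by exact_mod_cast hk
    have hq : ∀ᶠ x in 𝓝[>] (0 : ℝ), k / ((1 + a) / 2 - 2 * x) < 2 * k / (1 + a) + ε := by
      apply nhdsWithin_le_nhds
      have hc : ContinuousAt (fun x : ℝ => k / ((1 + a) / 2 - 2 * x)) 0 := by
        have h0 : (1 + a) / 2 - 2 * (0 : ℝ) ≠ 0 := by
          simp only [mul_zero, sub_zero]
          positivity
        fun_prop (disch := assumption)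
      apply hc.eventually_lt continuousAt_const
      have : (k : ℝ) / ((1 + a) / 2 - 2 * 0) = 2 * k / (1 + a) := by
        rw [mul_zero, sub_zero]
        field_simp
      rw [this]
      linarith
    obtain ⟨x, ⟨⟨⟨⟨hx1, hx2⟩, hx3⟩, hx4⟩, hx5⟩, hx6⟩ := (((((hq.and (hlt (1 / 16) (by norm_num))).and
      (hlt (a / 3) (by positivity))).and (hlt (1 - a) (by linarith))).and hpos).and
      (hlt ε hε)).exists
    set mu : ℝ := (1 + a) / 2 - 2 * x with hmu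
    have hm0 : 0 < mu := by rw [hmu]; linarith
    have hm1 : mu < 1 := by rw [hmu]; linarith
    set lam : ℝ := mu / k with hlam
    have hl0 : 0 < lam := by positivity
    have hkl : (k : ℝ) * lam = mu := by
      rw [hlam]
      field_simp
    obtain ⟨C, T0, hC0, hT0⟩ := (hH x x hx5 (by linarith) hx5).2 k lam (2 * k / (1 + a) + ε) hk hl0
      (by rw [hkl]; exact hm1) (by
        rw [hlam, one_div_div]
        exact hx1)
    obtain ⟨d, T1, hd, hT1⟩ := H71.ek_var hV k hk (a - 2 * x) lam (by linarith) (by linarith) hl0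
      (by rw [hkl]; exact hm1) (by rw [hkl, hmu]; linarith)
    have hd2 : 0 < d / 2 := by linarith
    obtain ⟨T2, hT2⟩ := Filter.eventually_atTop.1
      ((tendsto_rpow_atTop hd2).eventually_ge_atTop (C ^ 2))
    have h := ae_half hS hC hX (a := a) (a0 := x) (κ := (k.factorial : ℝ) / 3 ^ k + x)
      (κ' := (k.factorial : ℝ) / 3 ^ k + ε) hx5
      (by linarith) (by linarith) (by linarith) (by positivity) (by linarith)
      (fun γ => (mz γ : ℝ) * max ((mz γ : ℝ) - (2 * k / (1 + a) + ε)) 0 ^ (2 * k))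
      (fun γ => by
        have := le_max_right ((mz γ : ℝ) - (2 * k / (1 + a) + ε)) 0
        positivity)
      (fun T H t => C * Ek k lam T H t)
      (fun T H => continuous_const.mul (H71.ek_cont k lam T H))
      (fun T H t => mul_nonneg hC0.le (H71.ek_nonneg k lam T H t))
      ⟨T0, fun T t H a1 a2 a3 a4 a5 => hT0 T t H a1 a2 a3 a4 a5⟩
      ⟨d / 2, max (max T1 T2) 1, hd2, fun T H b1 b2 b3 => by
        have c1 : T1 ≤ T := (le_max_left _ _).trans ((le_max_left _ _).trans b1)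
        have c2 : T2 ≤ T := (le_max_right _ _).trans ((le_max_left _ _).trans b1)
        have c3 : 1 ≤ T := (le_max_right _ _).trans b1
        have c4 := hT1 T H c1 b2 b3
        have c5 := hT2 T c2
        have c6 : ∀ t, (C * Ek k lam T H t) ^ 2 = C ^ 2 * (Ek k lam T H t) ^ 2 := fun t => by ring
        simp_rw [c6]
        rw [intervalIntegral.integral_const_mul]
        have c7 : T ^ (1 - d / 2) = T ^ (d / 2) * T ^ (1 - d) := by
          rw [← Real.rpow_add (by linarith)]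
          ring_nf
        rw [c7]
        calc C ^ 2 * ∫ t in (T / 2)..(4 * T), (Ek k lam T H t) ^ 2
            ≤ C ^ 2 * T ^ (1 - d) := mul_le_mul_of_nonneg_left c4 (by positivity)
          _ ≤ T ^ (d / 2) * T ^ (1 - d) :=
            mul_le_mul_of_nonneg_right c5 (Real.rpow_nonneg (by linarith) _)⟩
    simp_rw [NWk_eq hZ]
    exact h
  · -- squares, all windows
    have hq : ∀ᶠ x in 𝓝[>] (0 : ℝ), 1 / (a - 4 * x) + (a - 4 * x) / 3 + x <
        1 / a + a / 3 + ε := by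
      apply nhdsWithin_le_nhds
      have hc : ContinuousAt (fun x : ℝ => 1 / (a - 4 * x) + (a - 4 * x) / 3 + x) 0 := by
        have h0 : a - 4 * (0 : ℝ) ≠ 0 := by
          simp only [mul_zero, sub_zero]
          positivity
        fun_prop (disch := assumption)
      apply hc.eventually_lt continuousAt_const
      simp only [mul_zero, sub_zero, add_zero]
      linarith
    obtain ⟨x, ⟨⟨⟨hx1, hx2⟩, hx3⟩, hx4⟩, hx5⟩ := ((((hq.and (hlt (1 / 16) (by norm_num))).and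
      (hlt (a / 8) (by positivity))).and (hlt (1 - a) (by linarith))).and hpos).exists
    set lam : ℝ := a - 4 * x with hlam
    have hl0 : 0 < lam := by rw [hlam]; linarith
    have hl1 : lam < 1 := by rw [hlam]; linarith
    obtain ⟨T0, hT0⟩ := (hH x x hx5 (by linarith) hx5).1 lam hl0 hl1
    have h := all_half hS hC (a := a) (a0 := x) (κ := 1 / lam + lam / 3 + x) (κ' := 1 / a + a / 3 + ε) hx5
      (by linarith) (by linarith) (by linarith) (by positivity) hx1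
      (fun γ => (mz γ : ℝ) ^ 2) (fun γ => by positivity) (fun T H t => E1 lam T H t)
      ⟨T0, fun T t H a1 a2 a3 a4 a5 => hT0 T t H a1 a2 a3 a4 a5⟩
      (H71.e1_zero hN x lam (a - 2 * x) hx5 (by rw [hlam]; linarith))
    simp_rw [NW2_eq hZ]
    exact h
  · -- moments, all windows
    intro k hk
    have hk0 : (0 : ℝ) < k := by exact_mod_cast hk
    have hq : ∀ᶠ x in 𝓝[>] (0 : ℝ), k / (a - 4 * x) < k / a + ε := by
      apply nhdsWithin_le_nhds
      have hc : ContinuousAt (fun x : ℝ => k / (a - 4 * x)) 0 := by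
        have h0 : a - 4 * (0 : ℝ) ≠ 0 := by
          simp only [mul_zero, sub_zero]
          positivity
        fun_prop (disch := assumption)
      apply hc.eventually_lt continuousAt_const
      simp only [mul_zero, sub_zero]
      linarith
    obtain ⟨x, ⟨⟨⟨⟨hx1, hx2⟩, hx3⟩, hx4⟩, hx5⟩, hx6⟩ := (((((hq.and (hlt (1 / 16) (by norm_num))).and
      (hlt (a / 8) (by positivity))).and (hlt (1 - a) (by linarith))).and hpos).and
      (hlt ε hε)).exists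
    set mu : ℝ := a - 4 * x with hmu
    have hm0 : 0 < mu := by rw [hmu]; linarith
    have hm1 : mu < 1 := by rw [hmu]; linarith
    set lam : ℝ := mu / k with hlam
    have hl0 : 0 < lam := by positivity
    have hkl : (k : ℝ) * lam = mu := by
      rw [hlam]
      field_simp
    obtain ⟨C, T0, hC0, hT0⟩ := (hH x x hx5 (by linarith) hx5).2 k lam (k / a + ε) hk hl0
      (by rw [hkl]; exact hm1) (by
        rw [hlam, one_div_div]
        exact hx1)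
    obtain ⟨T1, hT1⟩ := H71.ek_zero hN k hk x lam (a - 2 * x) hx5 hl0 (by rw [hkl, hmu]; linarith)
    have h := all_half hS hC (a := a) (a0 := x) (κ := (k.factorial : ℝ) / 3 ^ k + x)
      (κ' := (k.factorial : ℝ) / 3 ^ k + ε) hx5
      (by linarith) (by linarith) (by linarith) (by positivity) (by linarith)
      (fun γ => (mz γ : ℝ) * max ((mz γ : ℝ) - (k / a + ε)) 0 ^ (2 * k))
      (fun γ => by
        have := le_max_right ((mz γ : ℝ) - (k / a + ε)) 0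
        positivity)
      (fun T H t => C * Ek k lam T H t)
      ⟨T0, fun T t H a1 a2 a3 a4 a5 => hT0 T t H a1 a2 a3 a4 a5⟩
      ⟨T1, fun T H b1 b2 t => by rw [hT1 T H b1 b2 t, mul_zero]⟩
    simp_rw [NWk_eq hZ]
    exact h

end Pool.Agent.Lib.MP_6bc78b_nt.LW.H12
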