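import Mathlib

/-!
# From Gaussian windows to sharp windows

Pure real analysis.  `Z` is a finite set of reals with weights `f v ≥ 0`, and the Gaussian window
sum at `u` is `∑ v ∈ Z, f v * exp (-((v - u) / H) ^ 2)`.
-/

set_option autoImplicit false

open MeasureTheory Real Set Filter Topology
open scoped BigOperators Interval

namespace Pool.Agent.Lib.MP_6bc78b_nt.LW.H12

/-- The Gaussian weight. -/
noncomputable def gw (H u v : ℝ) : ℝ := Real.exp (-((v - u) / H) ^ 2)

lemma gw_nonneg (H u v : ℝ) : 0 ≤ gw H u v := (Real.exp_pos _).le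

lemma gw_pos (H u v : ℝ) : 0 < gw H u v := Real.exp_pos _

lemma gw_le_one (H u v : ℝ) : gw H u v ≤ 1 := by
  unfold gw
  rw [Real.exp_le_one_iff]
  have := sq_nonneg ((v - u) / H)
  linarith

lemma continuous_gw_left (H v : ℝ) : Continuous (fun u => gw H u v) := by
  unfold gw
  fun_prop

/-- The full Gaussian integral of the weight. -/
lemma integral_gw {H : ℝ} (hH : 0 < H) (v : ℝ) : ∫ u, gw H u v = √π * H := by
  have h1 : ∀ u, gw H u v = Real.exp (-(1 / H ^ 2) * (u - v) ^ 2) := by
    intro u
    unfold gw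
    congr 1
    field_simp
    ring
  simp_rw [h1]
  rw [integral_sub_right_eq_self (fun u => Real.exp (-(1 / H ^ 2) * u ^ 2)) v, integral_gaussian]
  rw [div_div_eq_mul_div, div_one, Real.sqrt_mul Real.pi_pos.le, Real.sqrt_sq hH.le]

lemma integrable_gw {H : ℝ} (hH : 0 < H) (v : ℝ) : Integrable (fun u => gw H u v) := by
  have h1 : (fun u => gw H u v) = fun u => Real.exp (-(1 / H ^ 2) * (u - v) ^ 2) := by
    funext u
    unfold gw
    congr 1
    field_simp
    ring
  rw [h1]
  have h2 : Integrable (fun u : ℝ => Real.exp (-(1 / H ^ 2) * u ^ 2)) :=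
    integrable_exp_neg_mul_sq (by positivity)
  exact h2.comp_sub_right v

/-- The Gaussian integral from a point `u = v + K H` on. -/
lemma integral_Ioi_gw_le {H : ℝ} (hH : 0 < H) {K : ℝ} (hK : 0 ≤ K) (v : ℝ) :
    ∫ u in Ioi (v + K * H), gw H u v ≤ Real.exp (-K ^ 2) * (√π * H / 2) := by
  have h2 : ∫ u in Ioi (v + K * H), gw H u v
      = ∫ u in Ioi v, gw H (u + K * H) v := by
    have h := (measurePreserving_add_right volume (K * H)).setIntegral_preimage_emb
      (MeasurableEquiv.addRight (K * H)).measurableEmbedding (fun u => gw H u v) (Ioi (v + K * H))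
    have h3 : (fun x : ℝ => x + K * H) ⁻¹' (Ioi (v + K * H)) = Ioi v := by
      ext x
      simp
    rw [← h]
    rw [h3]
  rw [h2]
  have h4 : ∫ u in Ioi v, gw H u v = √π * H / 2 := by
    have h5 : ∀ u, gw H u v = Real.exp (-(1 / H ^ 2) * (u - v) ^ 2) := by
      intro u
      unfold gw
      congr 1
      field_simp
      ring
    simp_rw [h5]
    have h := (measurePreserving_add_right volume v).setIntegral_preimage_emb
      (MeasurableEquiv.addRight v).measurableEmbedding
      (fun u => Real.exp (-(1 / H ^ 2) * (u - v) ^ 2)) (Ioi v)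
    have h3 : (fun x : ℝ => x + v) ⁻¹' (Ioi v) = Ioi 0 := by
      ext x
      simp
    rw [← h]
    rw [h3]
    simp only [add_sub_cancel_right]
    rw [integral_gaussian_Ioi]
    rw [div_div_eq_mul_div, div_one, Real.sqrt_mul Real.pi_pos.le, Real.sqrt_sq hH.le]
  rw [← h4, ← integral_const_mul]
  apply setIntegral_mono_on
  · have := (integrable_gw hH v).comp_add_right (K * H)
    exact this.integrableOn
  · exact ((integrable_gw hH v).const_mul _).integrableOn
  · exact measurableSet_Ioi
  · intro u hu
    have hu' : 0 < u - v := by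
      have := mem_Ioi.1 hu
      linarith
    unfold gw
    rw [← Real.exp_add, Real.exp_le_exp]
    have h6 : (v - (u + K * H)) / H = -((u - v) / H + K) := by
      field_simp
      ring
    have h7 : (v - u) / H = -((u - v) / H) := by ring
    rw [h6, h7]
    have h8 : 0 ≤ (u - v) / H := by positivity
    nlinarith [mul_nonneg h8 hK]

lemma integral_Iic_gw_le {H : ℝ} (hH : 0 < H) {K : ℝ} (hK : 0 ≤ K) (v : ℝ) :
    ∫ u in Iic (v - K * H), gw H u v ≤ Real.exp (-K ^ 2) * (√π * H / 2) := by
  have h1 := integral_Ioi_gw_le hH hK (-v)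
  have h2 : ∫ u in Iic (v - K * H), gw H u v = ∫ u in Ioi (-v + K * H), gw H u (-v) := by
    have h3 := integral_comp_neg_Iic (v - K * H) (fun u => gw H u (-v))
    have h4 : ∀ u, gw H (-u) (-v) = gw H u v := by
      intro u
      unfold gw
      congr 1
      have : (-v - -u) / H = -((v - u) / H) := by ring
      rw [this]
      ring
    simp_rw [h4] at h3
    rw [h3]
    congr 2
    ring_nf
  rw [h2]
  exact h1

/-- (1) Lower bound for the weight integrated over a neighbourhood of radius `K H`. -/
lemma gw_core {H : ℝ} (hH : 0 < H) {K : ℝ} (hK : 0 ≤ K) (v : ℝ) {A B : ℝ}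
    (hA : A ≤ v - K * H) (hB : v + K * H ≤ B) :
    (1 - Real.exp (-K ^ 2)) * (√π * H) ≤ ∫ u in A..B, gw H u v := by
  have hKH : 0 ≤ K * H := mul_nonneg hK hH.le
  have h0 : ∫ u in (v - K * H)..(v + K * H), gw H u v ≤ ∫ u in A..B, gw H u v := by
    apply intervalIntegral.integral_mono_interval hA (by linarith) hB
    · exact Filter.Eventually.of_forall (fun u => gw_nonneg H u v)
    · exact (integrable_gw hH v).intervalIntegrable
  refine le_trans ?_ h0
  have h1 : ∫ u, gw H u v = (∫ u in Iic (v - K * H), gw H u v)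
      + (∫ u in (v - K * H)..(v + K * H), gw H u v) + ∫ u in Ioi (v + K * H), gw H u v := by
    have hi := integrable_gw hH v
    have h2 : (∫ u in Iic (v - K * H), gw H u v) + (∫ u in (v - K * H)..(v + K * H), gw H u v)
        = ∫ u in Iic (v + K * H), gw H u v := by
      have := intervalIntegral.integral_Iic_sub_Iic (f := fun u => gw H u v) (μ := volume)
        (a := v - K * H) (b := v + K * H) hi.integrableOn hi.integrableOn
      linarith
    rw [h2]
    have h3 := intervalIntegral.integral_Iic_add_Ioi (f := fun u => gw H u v) (μ := volume)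
      (b := v + K * H) hi.integrableOn hi.integrableOn
    linarith
  rw [integral_gw hH v] at h1
  have h4 := integral_Ioi_gw_le hH hK v
  have h5 := integral_Iic_gw_le hH hK v
  linarith

/-- The weight integrated over any interval is at most the full integral. -/
lemma gw_total {H : ℝ} (hH : 0 < H) (v : ℝ) {A B : ℝ} (hAB : A ≤ B) :
    ∫ u in A..B, gw H u v ≤ √π * H := by
  rw [← integral_gw hH v, intervalIntegral.integral_of_le hAB]
  apply setIntegral_le_integral (integrable_gw hH v)
  exact Filter.Eventually.of_forall (fun u => gw_nonneg H u v)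

/-- (2) Upper bound for a sharp window from upper bounds for Gaussian windows. -/
theorem window_le (Z : Finset ℝ) (f b : ℝ → ℝ) {t h H K c : ℝ} (hH : 0 < H) (hK : 0 ≤ K)
    (hh : 0 ≤ h) (hf : ∀ v ∈ Z, 0 ≤ f v)
    (hb : IntervalIntegrable b volume (t - K * H) (t + h + K * H))
    (hS : ∀ u ∈ Icc (t - K * H) (t + h + K * H), ∑ v ∈ Z, f v * gw H u v ≤ c + b u) :
    (1 - Real.exp (-K ^ 2)) * (√π * H) * ∑ v ∈ Z.filter (fun v => t < v ∧ v ≤ t + h), f v
      ≤ (h + 2 * K * H) * c + ∫ u in (t - K * H)..(t + h + K * H), b u := by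
  classical
  have hKH : 0 ≤ K * H := mul_nonneg hK hH.le
  set A := t - K * H with hA
  set B := t + h + K * H with hB
  have hAB : A ≤ B := by rw [hA, hB]; linarith
  have hi : ∀ v, IntervalIntegrable (fun u => f v * gw H u v) volume A B := fun v =>
    ((integrable_gw hH v).const_mul (f v)).intervalIntegrable
  have h1 : ∫ u in A..B, ∑ v ∈ Z, f v * gw H u v ≤ ∫ u in A..B, (c + b u) := by
    apply intervalIntegral.integral_mono_on hAB
    · have := IntervalIntegrable.sum Z (f := fun v u => f v * gw H u v) (fun v _ => hi v)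
      refine this.congr ?_
      intro u _
      simp
    · exact intervalIntegrable_const.add hb
    · intro u hu
      exact hS u hu
  have h2 : ∫ u in A..B, (c + b u) = (h + 2 * K * H) * c + ∫ u in A..B, b u := by
    rw [intervalIntegral.integral_add intervalIntegrable_const hb, intervalIntegral.integral_const,
      smul_eq_mul]
    congr 1
    rw [hA, hB]
    ring
  have h3 : ∫ u in A..B, ∑ v ∈ Z, f v * gw H u v = ∑ v ∈ Z, f v * ∫ u in A..B, gw H u v := by
    rw [intervalIntegral.integral_finsetSum (fun v _ => hi v)]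
    apply Finset.sum_congr rfl
    intro v _
    rw [intervalIntegral.integral_const_mul]
  have h4 : (1 - Real.exp (-K ^ 2)) * (√π * H) * ∑ v ∈ Z.filter (fun v => t < v ∧ v ≤ t + h), f v
      ≤ ∑ v ∈ Z, f v * ∫ u in A..B, gw H u v := by
    rw [Finset.mul_sum]
    calc ∑ v ∈ Z.filter (fun v => t < v ∧ v ≤ t + h), (1 - Real.exp (-K ^ 2)) * (√π * H) * f v
        ≤ ∑ v ∈ Z.filter (fun v => t < v ∧ v ≤ t + h), f v * ∫ u in A..B, gw H u v := by
          apply Finset.sum_le_sum
          intro v hv
          rw [Finset.mem_filter] at hv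
          rw [mul_comm]
          apply mul_le_mul_of_nonneg_left _ (hf v hv.1)
          exact gw_core hH hK v (by rw [hA]; linarith [hv.2.1]) (by rw [hB]; linarith [hv.2.2])
      _ ≤ ∑ v ∈ Z, f v * ∫ u in A..B, gw H u v := by
          apply Finset.sum_le_sum_of_subset_of_nonneg (Finset.filter_subset _ _)
          intro v hv _
          apply mul_nonneg (hf v hv)
          apply intervalIntegral.integral_nonneg hAB
          intro u _
          exact gw_nonneg H u v
  rw [← h3] at h4
  linarith [h4, h1, h2.le, h2.ge]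

/-- (3) Lower bound for a sharp window from lower bounds for Gaussian windows. -/
theorem window_ge (Z : Finset ℝ) (f b : ℝ → ℝ) {t h H K c : ℝ} (hH : 0 < H) (hK : 0 ≤ K)
    (hh : 2 * K * H ≤ h) (hf : ∀ v ∈ Z, 0 ≤ f v)
    (hb : IntervalIntegrable b volume (t + K * H) (t + h - K * H))
    (hS : ∀ u ∈ Icc (t + K * H) (t + h - K * H), c - b u ≤ ∑ v ∈ Z, f v * gw H u v) :
    (h - 2 * K * H) * c - ∫ u in (t + K * H)..(t + h - K * H), b u
      ≤ √π * H * ∑ v ∈ Z.filter (fun v => t < v ∧ v ≤ t + h), f v
        + (h - 2 * K * H) * Real.exp (-K ^ 2) * ∑ v ∈ Z, f v := by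
  classical
  have hKH : 0 ≤ K * H := mul_nonneg hK hH.le
  set A := t + K * H with hA
  set B := t + h - K * H with hB
  have hAB : A ≤ B := by rw [hA, hB]; linarith
  have hi : ∀ v, IntervalIntegrable (fun u => f v * gw H u v) volume A B := fun v =>
    ((integrable_gw hH v).const_mul (f v)).intervalIntegrable
  have h1 : ∫ u in A..B, (c - b u) ≤ ∫ u in A..B, ∑ v ∈ Z, f v * gw H u v := by
    apply intervalIntegral.integral_mono_on hAB
    · exact intervalIntegrable_const.sub hb
    · have := IntervalIntegrable.sum Z (f := fun v u => f v * gw H u v) (fun v _ => hi v)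
      refine this.congr ?_
      intro u _
      simp
    · intro u hu
      exact hS u hu
  have h2 : ∫ u in A..B, (c - b u) = (h - 2 * K * H) * c - ∫ u in A..B, b u := by
    rw [intervalIntegral.integral_sub intervalIntegrable_const hb, intervalIntegral.integral_const,
      smul_eq_mul]
    congr 1
    rw [hA, hB]
    ring
  have h3 : ∫ u in A..B, ∑ v ∈ Z, f v * gw H u v = ∑ v ∈ Z, f v * ∫ u in A..B, gw H u v := by
    rw [intervalIntegral.integral_finsetSum (fun v _ => hi v)]
    apply Finset.sum_congr rfl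
    intro v _
    rw [intervalIntegral.integral_const_mul]
  have h4 : ∑ v ∈ Z, f v * ∫ u in A..B, gw H u v
      ≤ √π * H * ∑ v ∈ Z.filter (fun v => t < v ∧ v ≤ t + h), f v
        + (h - 2 * K * H) * Real.exp (-K ^ 2) * ∑ v ∈ Z, f v := by
    rw [← Finset.sum_filter_add_sum_filter_not Z (fun v => t < v ∧ v ≤ t + h)
      (fun v => f v * ∫ u in A..B, gw H u v)]
    apply add_le_add
    · rw [Finset.mul_sum]
      apply Finset.sum_le_sum
      intro v hv
      rw [Finset.mem_filter] at hv
      rw [mul_comm]
      exact mul_le_mul_of_nonneg_right (gw_total hH v hAB) (hf v hv.1)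
    · calc ∑ v ∈ Z.filter (fun v => ¬(t < v ∧ v ≤ t + h)), f v * ∫ u in A..B, gw H u v
          ≤ ∑ v ∈ Z.filter (fun v => ¬(t < v ∧ v ≤ t + h)),
              (h - 2 * K * H) * Real.exp (-K ^ 2) * f v := by
            apply Finset.sum_le_sum
            intro v hv
            rw [Finset.mem_filter] at hv
            rw [mul_comm ((h - 2 * K * H) * Real.exp (-K ^ 2))]
            apply mul_le_mul_of_nonneg_left _ (hf v hv.1)
            have h5 : ∫ u in A..B, gw H u v ≤ ∫ u in A..B, Real.exp (-K ^ 2) := by
              apply intervalIntegral.integral_mono_on hAB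
              · exact (integrable_gw hH v).intervalIntegrable
              · exact intervalIntegrable_const
              · intro u hu
                unfold gw
                rw [Real.exp_le_exp]
                have h6 : K ^ 2 ≤ ((v - u) / H) ^ 2 := by
                  rw [← sq_abs ((v - u) / H)]
                  apply pow_le_pow_left₀ hK
                  rw [le_abs]
                  rcases not_and_or.1 hv.2 with h7 | h7
                  · right
                    rw [← neg_div, le_div_iff₀ hH]
                    have := hu.1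
                    rw [hA] at this
                    linarith [not_lt.1 h7]
                  · left
                    rw [le_div_iff₀ hH]
                    have := hu.2
                    rw [hB] at this
                    linarith [not_le.1 h7]
                linarith
            rw [intervalIntegral.integral_const, smul_eq_mul] at h5
            refine h5.trans (le_of_eq ?_)
            congr 1
            rw [hA, hB]
            ring
        _ ≤ (h - 2 * K * H) * Real.exp (-K ^ 2) * ∑ v ∈ Z, f v := by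
            rw [← Finset.mul_sum]
            apply mul_le_mul_of_nonneg_left
            · exact Finset.sum_le_sum_of_subset_of_nonneg (Finset.filter_subset _ _)
                (fun v hv _ => hf v hv)
            · have : 0 ≤ h - 2 * K * H := by linarith
              positivity
  linarith [h4, h1, h2.le, h2.ge, h3.le, h3.ge]

/-- Fubini for a sliding interval. -/
lemma sliding {B : ℝ → ℝ} (hB : Continuous B) (hB0 : ∀ x, 0 ≤ B x) {a b A₁ A₂ : ℝ}
    (ha : 0 ≤ a) (hb : 0 ≤ b) (hA : A₁ ≤ A₂) :
    ∫ t in A₁..A₂, ∫ u in (t - a)..(t + b), B u ≤ (a + b) * ∫ u in (A₁ - a)..(A₂ + b), B u := by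
  have h1 : ∀ t, ∫ u in (t - a)..(t + b), B u = ∫ w in (-a)..b, B (t + w) := by
    intro t
    rw [intervalIntegral.integral_comp_add_left (fun x => B x) t]
    congr 1
  simp_rw [h1]
  have h2 : ∫ t in A₁..A₂, ∫ w in (-a)..b, B (t + w) = ∫ w in (-a)..b, ∫ t in A₁..A₂, B (t + w) := by
    have hc : Continuous (Function.uncurry (fun t w : ℝ => B (t + w))) := by
      unfold Function.uncurry
      fun_prop
    rw [intervalIntegral.integral_of_le (by linarith : -a ≤ b)]
    rw [← intervalIntegral_integral_swap]
    · apply intervalIntegral.integral_congr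
      intro t _
      simp only
      rw [intervalIntegral.integral_of_le (by linarith : -a ≤ b)]
    · rw [uIoc_of_le hA, Measure.prod_restrict]
      have : IntegrableOn (Function.uncurry (fun t w : ℝ => B (t + w)))
          (Icc A₁ A₂ ×ˢ Icc (-a) b) (volume.prod volume) :=
        hc.continuousOn.integrableOn_compact (isCompact_Icc.prod isCompact_Icc)
      exact this.mono_set (prod_mono Ioc_subset_Icc_self Ioc_subset_Icc_self)
  rw [h2]
  have h3 : ∀ w ∈ Icc (-a) b, ∫ t in A₁..A₂, B (t + w) ≤ ∫ u in (A₁ - a)..(A₂ + b), B u := by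
    intro w hw
    rw [intervalIntegral.integral_comp_add_right (fun x => B x) w]
    apply intervalIntegral.integral_mono_interval (by linarith [hw.1]) (by linarith)
      (by linarith [hw.2])
    · exact Filter.Eventually.of_forall hB0
    · exact hB.intervalIntegrable _ _
  have h4 : ∫ w in (-a)..b, ∫ t in A₁..A₂, B (t + w)
      ≤ ∫ _w in (-a)..b, ∫ u in (A₁ - a)..(A₂ + b), B u := by
    apply intervalIntegral.integral_mono_on (by linarith)
    · apply Continuous.intervalIntegrable
      have h5 : ∀ w, ∫ t in A₁..A₂, B (t + w) = ∫ u in (A₁ + w)..(A₂ + w), B u := fun w => by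
        rw [intervalIntegral.integral_comp_add_right (fun x => B x) w]
      simp_rw [h5]
      have h6 : ∀ w, ∫ u in (A₁ + w)..(A₂ + w), B u
          = (∫ u in (0:ℝ)..(A₂ + w), B u) - ∫ u in (0:ℝ)..(A₁ + w), B u := fun w => by
        rw [intervalIntegral.integral_interval_sub_left (hB.intervalIntegrable _ _)
          (hB.intervalIntegrable _ _)]
      simp_rw [h6]
      have h7 : Continuous (fun x => ∫ u in (0:ℝ)..x, B u) :=
        intervalIntegral.continuous_primitive (fun a b => hB.intervalIntegrable a b) 0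
      exact (h7.comp (continuous_const.add continuous_id)).sub
        (h7.comp (continuous_const.add continuous_id))
    · exact intervalIntegrable_const
    · exact h3
  refine h4.trans (le_of_eq ?_)
  rw [intervalIntegral.integral_const, smul_eq_mul]
  ring

lemma continuous_sliding {B : ℝ → ℝ} (hB : Continuous B) (a b : ℝ) :
    Continuous (fun t => ∫ u in (t - a)..(t + b), B u) := by
  have h6 : ∀ t, ∫ u in (t - a)..(t + b), B u
      = (∫ u in (0:ℝ)..(t + b), B u) - ∫ u in (0:ℝ)..(t - a), B u := fun t => by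
    rw [intervalIntegral.integral_interval_sub_left (hB.intervalIntegrable _ _)
      (hB.intervalIntegrable _ _)]
  simp_rw [h6]
  have h7 : Continuous (fun x => ∫ u in (0:ℝ)..x, B u) :=
    intervalIntegral.continuous_primitive (fun a b => hB.intervalIntegrable a b) 0
  exact (h7.comp (by fun_prop)).sub (h7.comp (by fun_prop))

/-- (4) Chebyshev for a sliding interval: the set of `t` in `[A₁, A₂]` with
`∫_{t - a}^{t + b} B ≥ lam` has measure at most `(a + b) M / lam`, if `∫ B ≤ M`. -/
theorem exceptional {B : ℝ → ℝ} (hB : Continuous B) (hB0 : ∀ x, 0 ≤ B x) {a b A₁ A₂ lam M : ℝ}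
    (ha : 0 ≤ a) (hb : 0 ≤ b) (hA : A₁ ≤ A₂) (hlam : 0 < lam)
    (hM : ∫ u in (A₁ - a)..(A₂ + b), B u ≤ M) :
    volume {t ∈ Icc A₁ A₂ | lam ≤ ∫ u in (t - a)..(t + b), B u}
      ≤ ENNReal.ofReal ((a + b) * M / lam) := by
  set F : ℝ → ℝ := fun t => ∫ u in (t - a)..(t + b), B u with hF
  have hFc : Continuous F := continuous_sliding hB a b
  have hF0 : ∀ t, 0 ≤ F t := fun t =>
    intervalIntegral.integral_nonneg (by linarith) (fun u _ => hB0 u)
  have h1 : ∫ t in A₁..A₂, F t ≤ (a + b) * M := by
    refine (sliding hB hB0 ha hb hA).trans ?_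
    exact mul_le_mul_of_nonneg_left hM (by linarith)
  have h2 : {t ∈ Icc A₁ A₂ | lam ≤ F t} ⊆ {t | ENNReal.ofReal lam ≤ ENNReal.ofReal (F t)} ∩ Icc A₁ A₂ := by
    intro t ht
    exact ⟨ENNReal.ofReal_le_ofReal ht.2, ht.1⟩
  have h3 : (volume.restrict (Icc A₁ A₂)) {t | ENNReal.ofReal lam ≤ ENNReal.ofReal (F t)}
      ≤ (∫⁻ t in Icc A₁ A₂, ENNReal.ofReal (F t)) / ENNReal.ofReal lam := by
    apply meas_ge_le_lintegral_div
    · exact (hFc.measurable.ennreal_ofReal).aemeasurable
    · simpa using hlam
    · exact ENNReal.ofReal_ne_top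
  have h4 : ∫⁻ t in Icc A₁ A₂, ENNReal.ofReal (F t) = ENNReal.ofReal (∫ t in A₁..A₂, F t) := by
    rw [intervalIntegral.integral_of_le hA, ← integral_Icc_eq_integral_Ioc,
      ofReal_integral_eq_lintegral_ofReal]
    · exact hFc.continuousOn.integrableOn_compact isCompact_Icc
    · exact Filter.Eventually.of_forall hF0
  calc volume {t ∈ Icc A₁ A₂ | lam ≤ F t}
      ≤ volume ({t | ENNReal.ofReal lam ≤ ENNReal.ofReal (F t)} ∩ Icc A₁ A₂) := measure_mono h2
    _ = (volume.restrict (Icc A₁ A₂)) {t | ENNReal.ofReal lam ≤ ENNReal.ofReal (F t)} := by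
        rw [Measure.restrict_apply]
        exact measurableSet_le measurable_const hFc.measurable.ennreal_ofReal
    _ ≤ ENNReal.ofReal (∫ t in A₁..A₂, F t) / ENNReal.ofReal lam := by rw [← h4]; exact h3
    _ = ENNReal.ofReal ((∫ t in A₁..A₂, F t) / lam) := (ENNReal.ofReal_div_of_pos hlam).symm
    _ ≤ ENNReal.ofReal ((a + b) * M / lam) := by
        apply ENNReal.ofReal_le_ofReal
        exact div_le_div_of_nonneg_right h1 hlam.le

/-- Cauchy-Schwarz on an interval. -/
lemma sq_int_le {B : ℝ → ℝ} (hB : Continuous B) {A₁ A₂ : ℝ} (hA : A₁ ≤ A₂) :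
    (∫ t in A₁..A₂, B t) ^ 2 ≤ (A₂ - A₁) * ∫ t in A₁..A₂, B t ^ 2 := by
  rcases hA.eq_or_lt with h | h
  · rw [h]
    simp
  set J := ∫ t in A₁..A₂, B t with hJ
  have h7 : 0 ≤ ∫ t in A₁..A₂, ((A₂ - A₁) * B t - J) ^ 2 :=
    intervalIntegral.integral_nonneg hA (fun t _ => sq_nonneg _)
  have h8 : ∫ t in A₁..A₂, ((A₂ - A₁) * B t - J) ^ 2
      = (A₂ - A₁) * ((A₂ - A₁) * (∫ t in A₁..A₂, B t ^ 2) - J ^ 2) := by
    have h9 : ∀ t, ((A₂ - A₁) * B t - J) ^ 2
        = (A₂ - A₁) ^ 2 * B t ^ 2 - (2 * (A₂ - A₁) * J) * B t + J ^ 2 := fun t => by ring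
    simp_rw [h9]
    have i1 : IntervalIntegrable (fun t => (A₂ - A₁) ^ 2 * B t ^ 2) volume A₁ A₂ :=
      (continuous_const.mul (hB.pow 2)).intervalIntegrable _ _
    have i2 : IntervalIntegrable (fun t => (2 * (A₂ - A₁) * J) * B t) volume A₁ A₂ :=
      (continuous_const.mul hB).intervalIntegrable _ _
    rw [intervalIntegral.integral_add (i1.sub i2) intervalIntegrable_const,
      intervalIntegral.integral_sub i1 i2, intervalIntegral.integral_const_mul,
      intervalIntegral.integral_const_mul, intervalIntegral.integral_const, smul_eq_mul, ← hJ]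
    ring
  rw [h8] at h7
  have h10 : 0 < A₂ - A₁ := by linarith
  have := nonneg_of_mul_nonneg_right h7 h10
  linarith

/-- Cauchy-Schwarz against a Gaussian weight: if `∫ exp(-((t - c)/T)^2) B(t)^2 dt ≤ V` then
`∫_{A₁}^{A₂} B ≤ sqrt ((A₂ - A₁) exp(R^2) V)` when `|t - c| ≤ R T` on `[A₁, A₂]`. -/
theorem int_le_sqrt {B : ℝ → ℝ} (hB : Continuous B) {A₁ A₂ c T R V : ℝ}
    (hA : A₁ ≤ A₂) (hT : 0 < T)
    (hI : Integrable (fun t => Real.exp (-((t - c) / T) ^ 2) * B t ^ 2))
    (hV : ∫ t, Real.exp (-((t - c) / T) ^ 2) * B t ^ 2 ≤ V)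
    (h1 : c - R * T ≤ A₁) (h2 : A₂ ≤ c + R * T) :
    ∫ t in A₁..A₂, B t ≤ Real.sqrt ((A₂ - A₁) * (Real.exp (R ^ 2) * V)) := by
  have h3 : ∫ t in A₁..A₂, B t ^ 2 ≤ Real.exp (R ^ 2) * V := by
    calc ∫ t in A₁..A₂, B t ^ 2
        ≤ ∫ t in A₁..A₂, Real.exp (R ^ 2) * (Real.exp (-((t - c) / T) ^ 2) * B t ^ 2) := by
          apply intervalIntegral.integral_mono_on hA
          · exact (hB.pow 2).intervalIntegrable _ _
          · exact (hI.const_mul _).intervalIntegrable
          · intro t ht
            rw [← mul_assoc, ← Real.exp_add]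
            have h4 : ((t - c) / T) ^ 2 ≤ R ^ 2 := by
              apply sq_le_sq'
              · rw [le_div_iff₀ hT]
                linarith [ht.1]
              · rw [div_le_iff₀ hT]
                linarith [ht.2]
            have h5 : 1 ≤ Real.exp (R ^ 2 + -((t - c) / T) ^ 2) := by
              apply Real.one_le_exp
              linarith
            nlinarith [sq_nonneg (B t)]
      _ = Real.exp (R ^ 2) * ∫ t in A₁..A₂, Real.exp (-((t - c) / T) ^ 2) * B t ^ 2 := by
          rw [intervalIntegral.integral_const_mul]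
      _ ≤ Real.exp (R ^ 2) * V := by
          apply mul_le_mul_of_nonneg_left _ (Real.exp_pos _).le
          refine le_trans ?_ hV
          rw [intervalIntegral.integral_of_le hA]
          apply setIntegral_le_integral hI
          exact Filter.Eventually.of_forall
            (fun t => mul_nonneg (Real.exp_pos _).le (sq_nonneg _))
  have h6 := sq_int_le hB hA
  calc ∫ t in A₁..A₂, B t ≤ Real.sqrt ((∫ t in A₁..A₂, B t) ^ 2) := by
        rw [Real.sqrt_sq_eq_abs]
        exact le_abs_self _
    _ ≤ Real.sqrt ((A₂ - A₁) * (Real.exp (R ^ 2) * V)) := by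
        apply Real.sqrt_le_sqrt
        refine h6.trans ?_
        exact mul_le_mul_of_nonneg_left h3 (by linarith)

end Pool.Agent.Lib.MP_6bc78b_nt.LW.H12
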