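import Pool.Agent.Lib.MP_6bc78b_nt.LW.Iface
import Pool.Agent.Lib.MP_6bc78b_nt.LW.H12.Sharp

/-! Project LW: modules SHP, CNW, EXC (from the Gaussian weight to sharp windows). -/

set_option autoImplicit false

open Complex Filter Topology MeasureTheory ArithmeticFunction

namespace Pool.Agent.Lib.MP_6bc78b_nt.LW.H12

open Pool.Agent.Lib.MP_6bc78b_nt
open Pool.Agent.Lib.MP_6bc78b_nt.MS Pool.Agent.Lib.MP_6bc78b_nt.MS.P1
open Pool.Agent.Lib.MP_6bc78b_nt.MS.P5 Pool.Agent.Lib.MP_6bc78b_nt.MS.P5.HM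

lemma wl_eq_gw (t H γ : ℝ) : wl t H γ = gw H t γ := by
  unfold wl gw
  rw [div_pow, neg_div]

/-- EXC with the constant `36`. -/
theorem exc (T H V η : ℝ) (E : ℝ → ℝ) (hη : 0 < η) (hH : 1 ≤ H) (hHT : 3 * H ≤ T / 10)
    (hE : Continuous E) (hV : ∫ u in (T / 2)..(4 * T), E u ^ 2 ≤ V) :
    volume {u : ℝ | T ≤ u ∧ u ≤ 3 * T / 2 ∧ η ≤ (2 / H) * ∫ v in (u - H)..(u + 2 * H), E v} ≤
      ENNReal.ofReal (36 * V / η ^ 2) := by
  have hH0 : 0 < H := by linarith
  have hT : 0 < T := by linarith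
  have hlam : 0 < η ^ 2 * H / 12 := by positivity
  have h1 := exceptional (B := fun u => E u ^ 2) (hE.pow 2) (fun x => sq_nonneg _)
    (a := H) (b := 2 * H) (A₁ := T) (A₂ := 3 * T / 2) (lam := η ^ 2 * H / 12) (M := V)
    hH0.le (by linarith) (by linarith) hlam (by
      refine le_trans ?_ hV
      apply intervalIntegral.integral_mono_interval (by linarith) (by linarith) (by linarith)
      · exact Filter.Eventually.of_forall (fun x => sq_nonneg _)
      · exact (hE.pow 2).intervalIntegrable _ _)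
  have h2 : (H + 2 * H) * V / (η ^ 2 * H / 12) = 36 * V / η ^ 2 := by
    field_simp
    ring
  rw [h2] at h1
  refine le_trans (measure_mono ?_) h1
  intro u hu
  obtain ⟨hu1, hu2, hu3⟩ := hu
  refine ⟨⟨hu1, hu2⟩, ?_⟩
  have h3 := sq_int_le hE (A₁ := u - H) (A₂ := u + 2 * H) (by linarith)
  have h4 : η ^ 2 ≤ ((2 / H) * ∫ v in (u - H)..(u + 2 * H), E v) ^ 2 :=
    pow_le_pow_left₀ hη.le hu3 2
  have h5 : ((2 / H) * ∫ v in (u - H)..(u + 2 * H), E v) ^ 2
      ≤ (2 / H) ^ 2 * ((u + 2 * H - (u - H)) * ∫ v in (u - H)..(u + 2 * H), E v ^ 2) := by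
    rw [mul_pow]
    exact mul_le_mul_of_nonneg_left h3 (by positivity)
  have h6 : (2 / H) ^ 2 * ((u + 2 * H - (u - H)) * ∫ v in (u - H)..(u + 2 * H), E v ^ 2)
      = (12 / H) * ∫ v in (u - H)..(u + 2 * H), E v ^ 2 := by
    field_simp
    ring
  have h7 : η ^ 2 ≤ (12 / H) * ∫ v in (u - H)..(u + 2 * H), E v ^ 2 := by
    rw [← h6]
    exact h4.trans h5
  rw [div_mul_eq_mul_div, le_div_iff₀ hH0] at h7
  show η ^ 2 * H / 12 ≤ ∫ v in (u - H)..(u + 2 * H), E v ^ 2
  linarith

theorem excS : ExcStatement :=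
  fun T H V η E hη hH hHT hE _ _ hV => exc T H V η E hη hH hHT hE hV

lemma tendsto_neg_pow {a : ℝ} (ha : 0 < a) : Tendsto (fun T : ℝ => T ^ (-a)) atTop (𝓝 0) :=
  tendsto_rpow_neg_atTop ha

lemma tendsto_exp_small {a : ℝ} (ha : 0 < a) :
    Tendsto (fun T : ℝ => Real.exp (-(T ^ a) ^ 2)) atTop (𝓝 0) := by
  have h1 : Tendsto (fun T : ℝ => T ^ a) atTop atTop := tendsto_rpow_atTop ha
  have h2 : Tendsto (fun T : ℝ => (T ^ a) ^ 2) atTop atTop :=
    (tendsto_pow_atTop (by norm_num)).comp h1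
  exact Real.tendsto_exp_neg_atTop_nhds_zero.comp h2

/-- The scale: `H' = H T^(-a0)`, `K = T^(a0/2)`, `K H' = H T^(-a0/2)`. -/
lemma scale {T H a0 : ℝ} (hT : 0 < T) : T ^ (a0 / 2) * (H * T ^ (-a0)) = H * T ^ (-(a0 / 2)) := by
  rw [mul_left_comm, ← Real.rpow_add hT]
  ring_nf

lemma fin_window (hZ : ZfacStatement) {u H : ℝ} (hu : 0 ≤ u) :
    {γ : ℝ | u < γ ∧ γ ≤ u + H ∧ riemannZeta (1 / 2 + γ * I) = 0}.Finite := by
  refine (hZ.2.2.2.2.2.1 (u + H)).subset ?_
  intro γ hγ
  exact ⟨lt_of_le_of_lt hu hγ.1, hγ.2.1, hγ.2.2⟩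

/-- SHP. -/
theorem shp (hZ : ZfacStatement) : ShpStatement := by
  intro a0 ε κ ha0 ha1 hε hκ
  have ha2 : 0 < a0 / 2 := by linarith
  -- the conditions on T
  have e1 : ∀ᶠ T : ℝ in atTop, 20 < T ^ a0 := (tendsto_rpow_atTop ha0).eventually_gt_atTop 20
  have t1 := tendsto_exp_small ha2
  have t2 := tendsto_neg_pow ha2
  have e2 : ∀ᶠ T : ℝ in atTop, κ * (1 + 2 * T ^ (-(a0 / 2))) <
      (1 - Real.exp (-(T ^ (a0 / 2)) ^ 2)) * (κ + ε) := by
    have l1 : Tendsto (fun T : ℝ => κ * (1 + 2 * T ^ (-(a0 / 2)))) atTop (𝓝 (κ * (1 + 2 * 0))) :=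
      (tendsto_const_nhds.add (t2.const_mul 2)).const_mul κ
    have l2 : Tendsto (fun T : ℝ => (1 - Real.exp (-(T ^ (a0 / 2)) ^ 2)) * (κ + ε)) atTop
        (𝓝 ((1 - 0) * (κ + ε))) := (tendsto_const_nhds.sub t1).mul_const _
    exact l1.eventually_lt l2 (by linarith)
  have e3 : ∀ᶠ T : ℝ in atTop, Real.exp (-(T ^ (a0 / 2)) ^ 2) < 1 / 2 :=
    t1.eventually (gt_mem_nhds (by norm_num))
  have e4 : ∀ᶠ T : ℝ in atTop, T ^ (-(a0 / 2)) < 1 := t2.eventually (gt_mem_nhds (by norm_num))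
  obtain ⟨T0, hT0⟩ := Filter.eventually_atTop.1
    (e1.and (e2.and (e3.and (e4.and (eventually_ge_atTop (1 : ℝ))))))
  refine ⟨T0, ?_⟩
  intro T H hT hH1 hH2 b E hb hE hE0 hyp u hu1 hu2
  obtain ⟨c1, c2, c3, c4, c5⟩ := hT0 T hT
  have hTpos : 0 < T := by linarith
  have hHpos : 0 < H := lt_of_lt_of_le (Real.rpow_pos_of_pos hTpos _) hH1
  have hHT : 20 * H ≤ T := by
    have h1 : T ^ (1 - a0) * T ^ a0 = T := by
      rw [← Real.rpow_add hTpos]
      simp
    have h2 : 0 < T ^ (1 - a0) := Real.rpow_pos_of_pos hTpos _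
    nlinarith
  have hfin := fin_window hZ (u := u) (H := H) (by linarith)
  set Hp := H * T ^ (-a0) with hHp
  have hHp0 : 0 < Hp := mul_pos hHpos (Real.rpow_pos_of_pos hTpos _)
  set K := T ^ (a0 / 2) with hK
  have hK0 : 0 ≤ K := (Real.rpow_pos_of_pos hTpos _).le
  have hKH : K * Hp = H * T ^ (-(a0 / 2)) := scale hTpos
  have hr0 : 0 < T ^ (-(a0 / 2)) := Real.rpow_pos_of_pos hTpos _
  have hKH1 : K * Hp ≤ H := by
    rw [hKH]
    nlinarith
  have hKH0 : 0 ≤ K * Hp := by rw [hKH]; positivity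
  set c := cL Hp * Real.log T with hc
  have hlog : 0 ≤ Real.log T := Real.log_nonneg c5
  have hc0 : 0 ≤ c := by
    rw [hc]
    unfold cL
    positivity
  have hEi : ∀ x y : ℝ, IntervalIntegrable E volume x y := fun x y => hE.intervalIntegrable _ _
  have key := window_le hfin.toFinset b (fun x => c * E x) (t := u) (h := H) (H := Hp) (K := K)
    (c := c * κ) hHp0 hK0 hHpos.le (fun v _ => hb v) ((hEi _ _).const_mul c) (by
      intro x hx
      have hx1 : 9 * T / 10 ≤ x := by linarith [hx.1]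
      have hx2 : x ≤ 8 * T / 5 := by linarith [hx.2]
      have h1 := hyp x hx1 hx2
      have hfz : (zst T x).Finite := (hZ.2.2.2.2.2.2 T).subset (fun γ hγ => hγ.1)
      rw [finsum_mem_eq_finite_toFinset_sum _ hfz] at h1
      have h2 : ∑ v ∈ hfin.toFinset, b v * gw Hp x v
          ≤ ∑ v ∈ hfz.toFinset, b v * wl x Hp v := by
        simp_rw [wl_eq_gw]
        apply Finset.sum_le_sum_of_subset_of_nonneg
        · intro γ hγ
          rw [Set.Finite.mem_toFinset] at hγ ⊢
          obtain ⟨g1, g2, g3⟩ := hγ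
          refine ⟨⟨by linarith, by linarith, g3⟩, ⟨by linarith, by linarith, g3⟩⟩
        · intro γ _ _
          exact mul_nonneg (hb γ) (gw_nonneg _ _ _)
      refine h2.trans (h1.trans (le_of_eq ?_))
      rw [hc]
      ring)
  have hfilter : hfin.toFinset.filter (fun v => u < v ∧ v ≤ u + H) = hfin.toFinset := by
    apply Finset.filter_true_of_mem
    intro v hv
    rw [Set.Finite.mem_toFinset] at hv
    exact ⟨hv.1, hv.2.1⟩
  rw [hfilter] at key
  rw [finsum_mem_eq_finite_toFinset_sum _ hfin]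
  set S := ∑ v ∈ hfin.toFinset, b v with hS
  rw [intervalIntegral.integral_const_mul] at key
  have hJ : ∫ v in (u - K * Hp)..(u + H + K * Hp), E v ≤ ∫ v in (u - H)..(u + 2 * H), E v := by
    apply intervalIntegral.integral_mono_interval (by linarith) (by linarith) (by linarith)
    · exact Filter.Eventually.of_forall hE0
    · exact hEi _ _
  set J := ∫ v in (u - H)..(u + 2 * H), E v with hJdef
  set q := 1 - Real.exp (-K ^ 2) with hq
  have hq0 : 1 / 2 < q := by rw [hq]; linarith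
  have hsp : 0 < √Real.pi := Real.sqrt_pos.2 Real.pi_pos
  have hcval : c = √Real.pi * Hp * (Real.log T / (2 * Real.pi)) := by
    rw [hc]
    unfold cL
    field_simp
    rw [Real.sq_sqrt Real.pi_pos.le]
    ring
  have h1 : q * S ≤ (Real.log T / (2 * Real.pi)) * ((H + 2 * K * Hp) * κ + J) := by
    have h2 : (√Real.pi * Hp) * (q * S)
        ≤ (√Real.pi * Hp) * ((Real.log T / (2 * Real.pi)) * ((H + 2 * K * Hp) * κ + J)) := by
      calc (√Real.pi * Hp) * (q * S) = q * (√Real.pi * Hp) * S := by ring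
        _ ≤ (H + 2 * K * Hp) * (c * κ) + c * ∫ v in (u - K * Hp)..(u + H + K * Hp), E v := key
        _ ≤ (H + 2 * K * Hp) * (c * κ) + c * J := by
            have := mul_le_mul_of_nonneg_left hJ hc0
            linarith
        _ = _ := by rw [hcval]; ring
    exact le_of_mul_le_mul_left h2 (by positivity)
  have hJ0 : 0 ≤ J := intervalIntegral.integral_nonneg (by linarith) (fun x _ => hE0 x)
  have hS0 : 0 ≤ S := Finset.sum_nonneg (fun v _ => hb v)
  have h3 : (H + 2 * K * Hp) * κ + J ≤ q * (H * (κ + ε + (2 / H) * J)) := by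
    have h4 : H * (κ + ε + (2 / H) * J) = H * (κ + ε) + 2 * J := by
      field_simp
    rw [h4]
    have h5 : (H + 2 * K * Hp) * κ = H * (κ * (1 + 2 * T ^ (-(a0 / 2)))) := by
      have : 2 * K * Hp = 2 * (H * T ^ (-(a0 / 2))) := by rw [← hKH]; ring
      rw [this]
      ring
    rw [h5]
    have h6 : H * (κ * (1 + 2 * T ^ (-(a0 / 2)))) ≤ H * (q * (κ + ε)) :=
      mul_le_mul_of_nonneg_left c2.le hHpos.le
    nlinarith
  have h7 : q * S ≤ q * ((H / (2 * Real.pi) * Real.log T) * (κ + ε + (2 / H) * J)) := by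
    have h8 : 0 ≤ Real.log T / (2 * Real.pi) := by positivity
    calc q * S ≤ (Real.log T / (2 * Real.pi)) * ((H + 2 * K * Hp) * κ + J) := h1
      _ ≤ (Real.log T / (2 * Real.pi)) * (q * (H * (κ + ε + (2 / H) * J))) :=
          mul_le_mul_of_nonneg_left h3 h8
      _ = _ := by ring
  exact le_of_mul_le_mul_left h7 (by linarith)

lemma NW_eq (hZ : ZfacStatement) (u H : ℝ) :
    NW u H = ∑ᶠ γ ∈ {γ : ℝ | u < γ ∧ γ ≤ u + H ∧ riemannZeta (1 / 2 + γ * I) = 0}, (mz γ : ℝ) := by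
  obtain ⟨z1, z2, -⟩ := hZ
  unfold NW
  rw [finsum_mem_def, finsum_mem_def]
  refine finsum_congr fun γ => ?_
  by_cases h : u < γ ∧ γ ≤ u + H ∧ riemannZeta (1 / 2 + γ * I) = 0
  · rw [Set.indicator_of_mem (show γ ∈ {γ : ℝ | u < γ ∧ γ ≤ u + H ∧
      riemannZeta (1 / 2 + γ * I) = 0} from h), Set.indicator_of_mem
      (show γ ∈ {γ : ℝ | u < γ ∧ γ ≤ u + H ∧ hardyZ γ = 0} from
      ⟨h.1, h.2.1, (z1 γ).2 h.2.2⟩), z2 γ h.2.2]
  · rw [Set.indicator_of_notMem (show γ ∉ {γ : ℝ | u < γ ∧ γ ≤ u + H ∧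
      riemannZeta (1 / 2 + γ * I) = 0} from h), Set.indicator_of_notMem
      (show γ ∉ {γ : ℝ | u < γ ∧ γ ≤ u + H ∧ hardyZ γ = 0} from
      fun h' => h ⟨h'.1, h'.2.1, (z1 γ).1 h'.2.2⟩)]

/-- CNW. -/
theorem cnw (hZ : ZfacStatement) (hN : NasStatement) (hC : CnLStatement) : CnwStatement := by
  intro a0 ε ha0 ha1 hε
  have ha2 : 0 < a0 / 2 := by linarith
  -- reduce to small ε
  set e : ℝ := min ε 1 / 8 with he
  have he0 : 0 < e := by rw [he]; positivity
  have he1 : 8 * e ≤ ε := by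
    rw [he]
    have := min_le_left ε 1
    linarith
  have he2 : e ≤ 1 / 8 := by
    rw [he]
    have := min_le_right ε 1
    linarith
  obtain ⟨T1, hT1⟩ := hC a0 e ha0 (by linarith) he0
  obtain ⟨T2, hT2⟩ := shp hZ a0 e (1 + e) ha0 ha1 he0 (by linarith)
  have e1 : ∀ᶠ T : ℝ in atTop, 20 < T ^ a0 := (tendsto_rpow_atTop ha0).eventually_gt_atTop 20
  have t2 := tendsto_neg_pow ha2
  have e4 : ∀ᶠ T : ℝ in atTop, T ^ (-(a0 / 2)) < e := t2.eventually (gt_mem_nhds he0)
  have e5 : ∀ᶠ T : ℝ in atTop, Nb (fun γ => (mz γ : ℝ)) (4 * T) ≤ T ^ 3 := by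
    have h1 : Tendsto (fun T : ℝ => 4 * T) atTop atTop :=
      Tendsto.const_mul_atTop (by norm_num) tendsto_id
    have h2 := h1.eventually (hN.eventually (gt_mem_nhds (show (1 : ℝ) < 2 by norm_num)))
    filter_upwards [h2, eventually_ge_atTop (64 : ℝ)] with T h3 h4
    have h5 : 0 < Real.log (4 * T) := Real.log_pos (by linarith)
    have h6 : 0 < 4 * T * Real.log (4 * T) / (2 * Real.pi) := by
      have := Real.pi_pos
      positivity
    rw [div_lt_iff₀ h6] at h3
    have h7 : Real.log (4 * T) ≤ 4 * T := (Real.log_le_sub_one_of_pos (by linarith)).trans (by linarith)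
    have h8 : 4 * T * Real.log (4 * T) / (2 * Real.pi) ≤ 16 * T ^ 2 / 6 := by
      rw [div_le_div_iff₀ (by have := Real.pi_pos; positivity) (by norm_num)]
      have h9 := Real.pi_gt_three
      have h10 : 4 * T * Real.log (4 * T) ≤ 16 * T ^ 2 := by nlinarith
      have h11 : 0 ≤ 4 * T * Real.log (4 * T) := by positivity
      nlinarith
    nlinarith [sq_nonneg T]
  have e6 : ∀ᶠ T : ℝ in atTop, Real.exp (-(T ^ (a0 / 2)) ^ 2) * T ^ 3 < e / 4 := by
    have h1 : Tendsto (fun T : ℝ => T ^ a0) atTop atTop := tendsto_rpow_atTop ha0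
    have h2 : Tendsto (fun x : ℝ => x ^ (3 / a0) * Real.exp (-x)) atTop (𝓝 0) := by
      have := tendsto_rpow_mul_exp_neg_mul_atTop_nhds_zero (3 / a0) 1 one_pos
      simpa using this
    have h3 := h2.comp h1
    have h4 := h3.eventually (gt_mem_nhds (show (0 : ℝ) < e / 4 by linarith))
    filter_upwards [h4, eventually_gt_atTop (0 : ℝ)] with T h5 h6
    simp only [Function.comp] at h5
    have h7 : (T ^ a0) ^ (3 / a0) = T ^ 3 := by
      rw [← Real.rpow_mul h6.le]
      have : a0 * (3 / a0) = (3 : ℕ) := by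
        field_simp
        norm_num
      rw [this, Real.rpow_natCast]
    have h8 : (T ^ (a0 / 2)) ^ 2 = T ^ a0 := by
      rw [← Real.rpow_natCast, ← Real.rpow_mul h6.le]
      congr 1
      push_cast
      ring
    rw [h7] at h5
    rw [h8, mul_comm]
    exact h5
  obtain ⟨T3, hT3⟩ := Filter.eventually_atTop.1
    (e1.and (e4.and (e5.and (e6.and (eventually_ge_atTop (3 : ℝ))))))
  refine ⟨max T1 (max T2 T3), ?_⟩
  intro T H u hT hH1 hH2 hu1 hu2
  have hTa : T1 ≤ T := (le_max_left _ _).trans hT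
  have hTb : T2 ≤ T := (le_max_left _ _).trans ((le_max_right _ _).trans hT)
  have hTc : T3 ≤ T := (le_max_right _ _).trans ((le_max_right _ _).trans hT)
  obtain ⟨c1, c4, c5, c6, c7⟩ := hT3 T hTc
  have hTpos : 0 < T := by linarith
  have hHpos : 0 < H := lt_of_lt_of_le (Real.rpow_pos_of_pos hTpos _) hH1
  have hHT : 20 * H ≤ T := by
    have h1 : T ^ (1 - a0) * T ^ a0 = T := by
      rw [← Real.rpow_add hTpos]
      simp
    have h2 : 0 < T ^ (1 - a0) := Real.rpow_pos_of_pos hTpos _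
    nlinarith
  set Hp := H * T ^ (-a0) with hHp
  have hHp0 : 0 < Hp := mul_pos hHpos (Real.rpow_pos_of_pos hTpos _)
  have hr1 : T ^ (-a0) ≤ 1 := Real.rpow_le_one_of_one_le_of_nonpos (by linarith) (by linarith)
  have hHpH : Hp ≤ H := by
    rw [hHp]
    nlinarith
  have hRng : ∀ t : ℝ, T / 2 ≤ t → t ≤ 4 * T → Rng a0 T t Hp := by
    intro t h1 h2
    refine ⟨h1, h2, ?_, hHpH.trans hH2⟩
    rw [hHp]
    calc T ^ a0 = T ^ (2 * a0) * T ^ (-a0) := by
          rw [← Real.rpow_add hTpos]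
          ring_nf
      _ ≤ H * T ^ (-a0) := mul_le_mul_of_nonneg_right hH1 (Real.rpow_pos_of_pos hTpos _).le
  have hHp1 : 1 ≤ Hp := by
    have h1 := (hRng T (by linarith) (by linarith)).2.2.1
    linarith
  have hlog1 : 1 ≤ Real.log T := by
    rw [Real.le_log_iff_exp_le hTpos]
    have := Real.exp_one_lt_d9
    linarith
  have hpi := Real.pi_pos
  have hlog : 0 < Real.log T := by linarith
  have hM : 0 < H / (2 * Real.pi) * Real.log T := by positivity
  have hmz : ∀ γ : ℝ, (0 : ℝ) ≤ mz γ := fun γ => Nat.cast_nonneg _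
  rw [NW_eq hZ]
  constructor
  · -- lower bound
    set K := T ^ (a0 / 2) with hK
    have hK0 : 0 ≤ K := (Real.rpow_pos_of_pos hTpos _).le
    have hKH : K * Hp = H * T ^ (-(a0 / 2)) := scale hTpos
    have hr0 : 0 < T ^ (-(a0 / 2)) := Real.rpow_pos_of_pos hTpos _
    have hKH1 : K * Hp ≤ e * H := by
      rw [hKH]
      nlinarith
    have hKH0 : 0 ≤ K * Hp := by rw [hKH]; positivity
    set c := cL Hp * Real.log T with hc
    have hZf : {γ : ℝ | T / 2 < γ ∧ γ ≤ 4 * T ∧ riemannZeta (1 / 2 + γ * I) = 0}.Finite := by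
      refine (hZ.2.2.2.2.2.1 (4 * T)).subset ?_
      intro γ hγ
      exact ⟨by linarith [hγ.1], hγ.2.1, hγ.2.2⟩
    have key := window_ge hZf.toFinset (fun γ => (mz γ : ℝ)) (fun _ => 0) (t := u) (h := H)
      (H := Hp) (K := K) (c := (1 - e) * c) hHp0 hK0 (by nlinarith) (fun v _ => hmz v)
      intervalIntegrable_const (by
        intro x hx
        have hx1 : T ≤ x := by linarith [hx.1]
        have hx2 : x ≤ 8 * T / 5 := by linarith [hx.2]
        have h1 := (hT1 T x Hp hTa (hRng x (by linarith) (by linarith))).1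
        have hfz : (zset x).Finite := hZ.2.2.2.2.2.2 x
        rw [finsum_mem_eq_finite_toFinset_sum _ hfz] at h1
        have h2 : ∑ v ∈ hfz.toFinset, (mz v : ℝ) * wl x Hp v
            ≤ ∑ v ∈ hZf.toFinset, (mz v : ℝ) * gw Hp x v := by
          simp_rw [wl_eq_gw]
          apply Finset.sum_le_sum_of_subset_of_nonneg
          · intro γ hγ
            rw [Set.Finite.mem_toFinset] at hγ ⊢
            obtain ⟨g1, g2, g3⟩ := hγ
            exact ⟨by linarith, by linarith, g3⟩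
          · intro γ _ _
            exact mul_nonneg (hmz γ) (gw_nonneg _ _ _)
        rw [sub_zero]
        exact h1.trans h2)
    have hfilter : ∑ v ∈ hZf.toFinset.filter (fun v => u < v ∧ v ≤ u + H), (mz v : ℝ)
        ≤ ∑ᶠ γ ∈ {γ : ℝ | u < γ ∧ γ ≤ u + H ∧ riemannZeta (1 / 2 + γ * I) = 0}, (mz γ : ℝ) := by
      have hfin := fin_window hZ (u := u) (H := H) (by linarith)
      rw [finsum_mem_eq_finite_toFinset_sum _ hfin]
      apply Finset.sum_le_sum_of_subset_of_nonneg
      · intro γ hγ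
        rw [Finset.mem_filter, Set.Finite.mem_toFinset] at hγ
        rw [Set.Finite.mem_toFinset]
        exact ⟨hγ.2.1, hγ.2.2, hγ.1.2.2⟩
      · intro γ _ _
        exact hmz γ
    set S := ∑ᶠ γ ∈ {γ : ℝ | u < γ ∧ γ ≤ u + H ∧ riemannZeta (1 / 2 + γ * I) = 0}, (mz γ : ℝ)
      with hS
    have htot : ∑ v ∈ hZf.toFinset, (mz v : ℝ) ≤ T ^ 3 := by
      refine le_trans ?_ c5
      unfold Nb
      have hfX := hZ.2.2.2.2.2.1 (4 * T)
      rw [finsum_mem_eq_finite_toFinset_sum _ hfX]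
      apply Finset.sum_le_sum_of_subset_of_nonneg
      · intro γ hγ
        rw [Set.Finite.mem_toFinset] at hγ ⊢
        exact ⟨by linarith [hγ.1], hγ.2.1, hγ.2.2⟩
      · intro γ _ _
        exact hmz γ
    have hsp : 0 < √Real.pi := Real.sqrt_pos.2 Real.pi_pos
    have hcval : c = √Real.pi * Hp * (Real.log T / (2 * Real.pi)) := by
      rw [hc]
      unfold cL
      field_simp
      rw [Real.sq_sqrt Real.pi_pos.le]
    have hc1 : 1 / 4 ≤ c := by
      rw [hc]
      unfold cL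
      have h1 : √Real.pi ≤ 2 := by
        rw [Real.sqrt_le_left (by norm_num)]
        have := Real.pi_le_four
        linarith
      have h2 : 1 / 4 ≤ Hp / (2 * √Real.pi) := by
        rw [div_le_div_iff₀ (by norm_num) (by positivity)]
        linarith
      nlinarith
    have hcut : 0 ≤ H - 2 * K * Hp := by nlinarith
    have h1 : (H - 2 * K * Hp) * ((1 - e) * c) ≤ √Real.pi * Hp * S
        + (H - 2 * K * Hp) * (e * c) := by
      have h2 : (H - 2 * K * Hp) * Real.exp (-K ^ 2) * ∑ v ∈ hZf.toFinset, (mz v : ℝ)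
          ≤ (H - 2 * K * Hp) * (e * c) := by
        rw [mul_assoc]
        apply mul_le_mul_of_nonneg_left _ hcut
        calc Real.exp (-K ^ 2) * ∑ v ∈ hZf.toFinset, (mz v : ℝ)
            ≤ Real.exp (-K ^ 2) * T ^ 3 := mul_le_mul_of_nonneg_left htot (Real.exp_pos _).le
          _ ≤ e / 4 := c6.le
          _ ≤ e * c := by nlinarith
      have h3 : √Real.pi * Hp * ∑ v ∈ hZf.toFinset.filter (fun v => u < v ∧ v ≤ u + H), (mz v : ℝ)
          ≤ √Real.pi * Hp * S := mul_le_mul_of_nonneg_left hfilter (by positivity)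
      rw [intervalIntegral.integral_zero, sub_zero] at key
      linarith
    have h4 : (√Real.pi * Hp) * ((1 - ε) * (H / (2 * Real.pi) * Real.log T))
        ≤ (√Real.pi * Hp) * S := by
      have h5 : (H - 2 * K * Hp) * ((1 - 2 * e) * c) ≤ √Real.pi * Hp * S := by linarith
      refine le_trans ?_ h5
      have h6 : (1 - 2 * e) * H ≤ H - 2 * K * Hp := by linarith
      have h7 : (√Real.pi * Hp) * ((1 - ε) * (H / (2 * Real.pi) * Real.log T))
          = ((1 - ε) * H) * c := by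
        rw [hcval]
        ring
      rw [h7]
      have hc0 : 0 < c := by linarith
      calc ((1 - ε) * H) * c ≤ (((1 - 2 * e) * H) * (1 - 2 * e)) * c := by
            apply mul_le_mul_of_nonneg_right _ hc0.le
            nlinarith
        _ ≤ ((H - 2 * K * Hp) * (1 - 2 * e)) * c := by
            apply mul_le_mul_of_nonneg_right _ hc0.le
            apply mul_le_mul_of_nonneg_right h6
            linarith
        _ = _ := by ring
    exact le_of_mul_le_mul_left h4 (by positivity)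
  · -- upper bound
    have h1 := hT2 T H hTb hH1 hH2 (fun γ => (mz γ : ℝ)) (fun _ => 0) (fun γ => hmz γ)
      continuous_const (fun _ => le_refl _) (by
        intro t ht1 ht2
        have h2 := (hT1 T t Hp hTa (hRng t (by linarith) (by linarith))).2
        have hfz : (zset t).Finite := hZ.2.2.2.2.2.2 t
        have hfz' : (zst T t).Finite := hfz.subset (fun γ hγ => hγ.2)
        rw [finsum_mem_eq_finite_toFinset_sum _ hfz] at h2
        rw [finsum_mem_eq_finite_toFinset_sum _ hfz']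
        have h3 : ∑ γ ∈ hfz'.toFinset, (mz γ : ℝ) * wl t (H * T ^ (-a0)) γ
            ≤ ∑ γ ∈ hfz.toFinset, (mz γ : ℝ) * wl t Hp γ := by
          apply Finset.sum_le_sum_of_subset_of_nonneg
          · intro γ hγ
            rw [Set.Finite.mem_toFinset] at hγ ⊢
            exact hγ.2
          · intro γ _ _
            exact mul_nonneg (hmz γ) (Real.exp_pos _).le
        refine h3.trans (h2.trans (le_of_eq ?_))
        rw [add_zero]
        ring) u hu1 hu2
    refine h1.trans ?_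
    rw [intervalIntegral.integral_zero, mul_zero, add_zero, mul_comm]
    apply mul_le_mul_of_nonneg_right _ hM.le
    linarith

end Pool.Agent.Lib.MP_6bc78b_nt.LW.H12
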